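import Mathlib

set_option autoImplicit false

/-!
# The mini-max ratio for self-adjoint Toeplitz matrices exceeds `π/2` for every `N ≥ 2`
-/

namespace Pool.Agent.Results.MP_becf51_an.MiniMax

open MeasureTheory Set Filter Topology AddCircle

noncomputable section

/-- Normalised Lebesgue measure on the circle, written additively as `ℝ/ℤ`. -/
abbrev m : Measure UnitAddCircle := haarAddCircle

/-- `a_{-n}` is the conjugate of `a_n`. -/
def IsSelfAdjointSeq (a : ℤ → ℂ) : Prop := ∀ n, a (-n) = (starRingEnd ℂ) (a n)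

/-- The Toeplitz matrix `(a_{j-k})_{j,k=0}^N`. -/
def toep (N : ℕ) (a : ℤ → ℂ) : Matrix (Fin (N + 1)) (Fin (N + 1)) ℂ :=
  Matrix.of fun j k => a ((j : ℤ) - (k : ℤ))

/-- The operator norm of a matrix on Euclidean space. -/
def opNorm {n : ℕ} (A : Matrix (Fin n) (Fin n) ℂ) : ℝ :=
  ‖Matrix.toEuclideanCLM (n := Fin n) (𝕜 := ℂ) A‖

/-- The set `G_A`: the `f ∈ L^∞` with `f̂(n) = a_n` for `-N ≤ n ≤ N`. -/
def symbols (N : ℕ) (a : ℤ → ℂ) : Set (Lp ℂ ⊤ m) :=
  {f | ∀ n : ℤ, |n| ≤ N → fourierCoeff f n = a n}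

/-- `c_A`, the least norm of a member of `G_A`. -/
def cA (N : ℕ) (a : ℤ → ℂ) : ℝ := sInf ((fun f => ‖f‖) '' symbols N a)

/-- `c_N`, the largest ratio `c_A / ‖A‖`. -/
def cN (N : ℕ) : ℝ :=
  sSup {r | ∃ a, IsSelfAdjointSeq a ∧ toep N a ≠ 0 ∧ r = cA N a / opNorm (toep N a)}

/-! ## Matrix norms -/

theorem apply_eq {n : ℕ} (A : Matrix (Fin n) (Fin n) ℂ) (x : EuclideanSpace ℂ (Fin n)) (j : Fin n) :
    (Matrix.toEuclideanCLM (n := Fin n) (𝕜 := ℂ) A x) j = ∑ k, A j k * x k := by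
  have := congrFun (Matrix.ofLp_toEuclideanCLM A x) j
  rw [this]
  rfl

theorem entry_le {n : ℕ} (A : Matrix (Fin n) (Fin n) ℂ) (j k : Fin n) : ‖A j k‖ ≤ opNorm A := by
  have h1 := (Matrix.toEuclideanCLM (n := Fin n) (𝕜 := ℂ) A).le_opNorm
    (EuclideanSpace.single k (1 : ℂ))
  rw [EuclideanSpace.norm_single, norm_one, mul_one] at h1
  refine le_trans ?_ h1
  have h2 : A j k = (Matrix.toEuclideanCLM (n := Fin n) (𝕜 := ℂ) A
      (EuclideanSpace.single k (1 : ℂ))) j := by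
    rw [apply_eq]
    simp
  rw [h2]
  exact PiLp.norm_apply_le _ _

theorem opNorm_pos {n : ℕ} {A : Matrix (Fin n) (Fin n) ℂ} (hA : A ≠ 0) : 0 < opNorm A := by
  by_contra hcon
  rw [not_lt] at hcon
  refine hA ?_
  ext j k
  have := (entry_le A j k).trans hcon
  simpa using norm_le_zero_iff.1 this

theorem opNorm_le {n : ℕ} (A : Matrix (Fin n) (Fin n) ℂ) {C : ℝ} (hC : 0 ≤ C)
    (h : ∀ x : Fin n → ℂ, ∑ j, ‖∑ k, A j k * x k‖ ^ 2 ≤ C ^ 2 * ∑ j, ‖x j‖ ^ 2) :
    opNorm A ≤ C := by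
  refine ContinuousLinearMap.opNorm_le_bound _ hC fun x => ?_
  rw [EuclideanSpace.norm_eq, EuclideanSpace.norm_eq]
  simp only [apply_eq]
  have h1 := h x
  rw [← Real.sqrt_sq hC, ← Real.sqrt_mul (by positivity)]
  exact Real.sqrt_le_sqrt h1

/-- the sequence used for `N ≠ 3` -/
def aSeq (k : ℕ) (n : ℤ) : ℂ := if n = 0 then -1 else if (k : ℤ) ∣ n then 2 else 0

theorem aSeq_eq (k : ℕ) (n : ℤ) : aSeq k n = (if (k : ℤ) ∣ n then 2 else 0) -
    3 * (if n = 0 then 1 else 0) := by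
  unfold aSeq
  by_cases h : n = 0
  · subst h
    simp
    norm_num
  · simp [h]

theorem dvd_iff_mod {k i j : ℕ} : (k : ℤ) ∣ ((i : ℤ) - j) ↔ j % k = i % k := by
  rw [← Int.modEq_iff_dvd, Int.natCast_modEq_iff]
  rfl

theorem card_le_three {N k r : ℕ} (hk : 0 < k) (hN : N < 3 * k) :
    (Finset.univ.filter fun j : Fin (N + 1) => (j : ℕ) % k = r).card ≤ 3 := by
  have : ((Finset.univ.filter fun j : Fin (N + 1) => (j : ℕ) % k = r).image
      fun j : Fin (N + 1) => (j : ℕ) / k).card =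
      (Finset.univ.filter fun j : Fin (N + 1) => (j : ℕ) % k = r).card := by
    refine Finset.card_image_of_injOn ?_
    intro i hi j hj hij
    simp only [Finset.coe_filter, Finset.mem_univ, true_and, mem_setOf_eq] at hi hj
    ext
    rw [← Nat.div_add_mod (i : ℕ) k, ← Nat.div_add_mod (j : ℕ) k, hi, hj]
    simp only at hij
    rw [hij]
  rw [← this]
  refine (Finset.card_le_card (t := Finset.range 3) ?_).trans (by simp)
  intro q hq
  rw [Finset.mem_image] at hq
  obtain ⟨j, _, rfl⟩ := hq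
  rw [Finset.mem_range, Nat.div_lt_iff_lt_mul hk]
  have := j.2
  omega

theorem opNorm_aSeq {N k : ℕ} (hk : 0 < k) (hN : N < 3 * k) : opNorm (toep N (aSeq k)) ≤ 3 := by
  refine opNorm_le _ (by norm_num) fun x => ?_
  -- the sums over residue classes
  set S : ℕ → ℂ := fun r => ∑ l : Fin (N + 1), if (l : ℕ) % k = r then x l else 0 with hS
  have hrow : ∀ j : Fin (N + 1), ∑ l, toep N (aSeq k) j l * x l = 2 * S (j % k) - 3 * x j := by
    intro j
    have h1 : ∀ l : Fin (N + 1), toep N (aSeq k) j l * x l =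
        2 * (if (l : ℕ) % k = (j : ℕ) % k then x l else 0) - 3 * (if l = j then x l else 0) := by
      intro l
      have h2 : toep N (aSeq k) j l = aSeq k ((j : ℤ) - (l : ℤ)) := rfl
      rw [h2, aSeq_eq]
      have h3 : ((j : ℤ) - (l : ℤ) = 0) ↔ l = j := by
        rw [sub_eq_zero, Fin.ext_iff]
        omega
      simp only [dvd_iff_mod, h3]
      split_ifs <;> ring
    rw [Finset.sum_congr rfl fun l _ => h1 l, Finset.sum_sub_distrib, ← Finset.mul_sum,
      ← Finset.mul_sum, Finset.sum_ite_eq' Finset.univ j, if_pos (Finset.mem_univ _)]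
  simp only [hrow]
  have hexp : ∀ j : Fin (N + 1), ‖2 * S (j % k) - 3 * x j‖ ^ 2 =
      4 * ‖S (j % k)‖ ^ 2 - 12 * ((starRingEnd ℂ) (S (j % k)) * x j).re + 9 * ‖x j‖ ^ 2 := by
    intro j
    rw [← Complex.normSq_eq_norm_sq, ← Complex.normSq_eq_norm_sq, ← Complex.normSq_eq_norm_sq]
    simp only [Complex.normSq_apply, Complex.sub_re, Complex.sub_im, Complex.mul_re, Complex.mul_im,
      Complex.conj_re, Complex.conj_im]
    norm_num
    ring
  rw [Finset.sum_congr rfl fun j _ => hexp j, Finset.sum_add_distrib, Finset.sum_sub_distrib,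
    ← Finset.mul_sum, ← Finset.mul_sum, ← Finset.mul_sum]
  have hmaps : ∀ j ∈ (Finset.univ : Finset (Fin (N + 1))), (j : ℕ) % k ∈ Finset.range k :=
    fun j _ => Finset.mem_range.2 (Nat.mod_lt _ hk)
  have h1 : ∑ j : Fin (N + 1), ‖S (j % k)‖ ^ 2 ≤ 3 * ∑ r ∈ Finset.range k, ‖S r‖ ^ 2 := by
    rw [← Finset.sum_fiberwise_of_maps_to hmaps, Finset.mul_sum]
    refine Finset.sum_le_sum fun r _ => ?_
    have h2 : ∑ j ∈ Finset.univ.filter (fun j : Fin (N + 1) => (j : ℕ) % k = r),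
        ‖S ((j : ℕ) % k)‖ ^ 2 =
        ∑ j ∈ Finset.univ.filter (fun j : Fin (N + 1) => (j : ℕ) % k = r), ‖S r‖ ^ 2 := by
      refine Finset.sum_congr rfl fun j hj => ?_
      rw [(Finset.mem_filter.1 hj).2]
    rw [h2, Finset.sum_const, nsmul_eq_mul]
    refine mul_le_mul_of_nonneg_right ?_ (by positivity)
    exact_mod_cast card_le_three hk hN
  have h2 : ∑ j : Fin (N + 1), ((starRingEnd ℂ) (S (j % k)) * x j).re =
      ∑ r ∈ Finset.range k, ‖S r‖ ^ 2 := by
    rw [← Finset.sum_fiberwise_of_maps_to hmaps]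
    refine Finset.sum_congr rfl fun r _ => ?_
    have h3 : ∑ j ∈ Finset.univ.filter (fun j : Fin (N + 1) => (j : ℕ) % k = r),
        ((starRingEnd ℂ) (S ((j : ℕ) % k)) * x j).re =
        ∑ j ∈ Finset.univ.filter (fun j : Fin (N + 1) => (j : ℕ) % k = r),
          ((starRingEnd ℂ) (S r) * x j).re := by
      refine Finset.sum_congr rfl fun j hj => ?_
      rw [(Finset.mem_filter.1 hj).2]
    rw [h3, ← Complex.re_sum, ← Finset.mul_sum, Finset.sum_filter]
    have h4 : (∑ a : Fin (N + 1), if (a : ℕ) % k = r then x a else 0) = S r := rfl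
    rw [h4, ← Complex.normSq_eq_conj_mul_self, Complex.ofReal_re, Complex.normSq_eq_norm_sq]
  rw [h2]
  norm_num
  linarith

/-- the sequence used for `N = 3` -/
def bSeq (n : ℤ) : ℂ := if |n| = 1 then 1 else if |n| = 3 then -1 else 0

theorem opNorm_bSeq : opNorm (toep 3 bSeq) ≤ Real.sqrt 2 := by
  refine opNorm_le _ (by positivity) fun x => ?_
  rw [Real.sq_sqrt (by norm_num)]
  have key : ∀ x : Fin 4 → ℂ, ∑ j : Fin 4, ‖∑ l : Fin 4, bSeq ((j : ℤ) - (l : ℤ)) * x l‖ ^ 2 ≤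
      2 * ∑ j : Fin 4, ‖x j‖ ^ 2 := by
    intro x
    simp only [Fin.sum_univ_four]
    simp only [← Complex.normSq_eq_norm_sq]
    norm_num [bSeq, Complex.normSq_apply]
    apply le_of_eq
    ring
  exact key x

/-! ## The quantities `c_A` and `c_N` -/

theorem exists_symbol (N : ℕ) (a : ℤ → ℂ) :
    ∃ f ∈ symbols N a, ‖f‖ ≤ ∑ n ∈ Finset.Icc (-(N : ℤ)) N, ‖a n‖ := by
  set F : C(UnitAddCircle, ℂ) := ∑ n ∈ Finset.Icc (-(N : ℤ)) N, a n • fourier n with hF
  have hFa : (F : UnitAddCircle → ℂ) = ∑ n ∈ Finset.Icc (-(N : ℤ)) N,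
      a n • (fourier n : UnitAddCircle → ℂ) := by
    ext x
    rw [hF]
    simp
  refine ⟨ContinuousMap.toLp ⊤ m ℂ F, ?_, ?_⟩
  · intro n hn
    rw [fourierCoeff_congr_ae (ContinuousMap.coeFn_toLp (p := ⊤) (𝕜 := ℂ) m F), hFa,
      fourierCoeff.sum]
    · rw [Finset.sum_apply]
      have h1 : ∀ k ∈ Finset.Icc (-(N : ℤ)) N,
          fourierCoeff (a k • (fourier k : UnitAddCircle → ℂ)) n = if k = n then a n else 0 := by
        intro k _
        rw [fourierCoeff.const_smul, fourierCoeff_fourier, Pi.single_apply]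
        by_cases h : n = k
        · rw [if_pos h, if_pos h.symm, h]
          simp
        · rw [if_neg h, if_neg fun h' => h h'.symm]
          simp
      rw [Finset.sum_congr rfl h1, Finset.sum_ite_eq' _ n, if_pos]
      rw [abs_le] at hn
      exact Finset.mem_Icc.2 hn
    · intro k _
      exact ((map_continuous (fourier k)).const_smul (a k)).integrable_of_hasCompactSupport
        (HasCompactSupport.of_compactSpace _)
  · refine (Lp.norm_le_of_ae_bound (C := ‖F‖) (norm_nonneg _) ?_).trans ?_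
    · filter_upwards [ContinuousMap.coeFn_toLp (p := ⊤) (𝕜 := ℂ) m F] with x hx
      rw [hx]
      exact F.norm_coe_le_norm x
    · simp only [ENNReal.toReal_top, inv_zero, Real.rpow_zero, one_mul, NNReal.rpow_zero,
        NNReal.coe_one]
      rw [hF]
      refine (norm_sum_le _ _).trans (Finset.sum_le_sum fun n _ => ?_)
      rw [norm_smul, fourier_norm, mul_one]

theorem le_cA {N : ℕ} {a : ℤ → ℂ} {L : ℝ} (h : ∀ f ∈ symbols N a, L ≤ ‖f‖) : L ≤ cA N a := by
  obtain ⟨f, hf, _⟩ := exists_symbol N a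
  refine le_csInf ⟨_, f, hf, rfl⟩ ?_
  rintro _ ⟨g, hg, rfl⟩
  exact h g hg

theorem norm_a_le {N : ℕ} {a : ℤ → ℂ} {n : ℤ} (hn : n ∈ Finset.Icc (-(N : ℤ)) N) :
    ‖a n‖ ≤ opNorm (toep N a) := by
  rw [Finset.mem_Icc] at hn
  rcases le_or_gt 0 n with h | h
  · have h1 := entry_le (toep N a) ⟨n.toNat, by omega⟩ 0
    have h2 : toep N a ⟨n.toNat, by omega⟩ 0 = a n := by
      unfold toep
      rw [Matrix.of_apply]
      congr 1
      simp
      exact h
    rwa [h2] at h1
  · have h1 := entry_le (toep N a) 0 ⟨(-n).toNat, by omega⟩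
    have h2 : toep N a 0 ⟨(-n).toNat, by omega⟩ = a n := by
      unfold toep
      rw [Matrix.of_apply]
      congr 1
      simp
      omega
    rwa [h2] at h1

theorem cA_le (N : ℕ) (a : ℤ → ℂ) : cA N a ≤ (2 * N + 1) * opNorm (toep N a) := by
  obtain ⟨f, hf, hf2⟩ := exists_symbol N a
  have h1 : cA N a ≤ ‖f‖ := csInf_le ⟨0, by rintro _ ⟨g, _, rfl⟩; exact norm_nonneg g⟩ ⟨f, hf, rfl⟩
  refine (h1.trans hf2).trans ?_
  refine (Finset.sum_le_card_nsmul _ _ _ fun n hn => norm_a_le hn).trans ?_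
  rw [nsmul_eq_mul, Int.card_Icc]
  have : ((N : ℤ) + 1 - -(N : ℤ)).toNat = 2 * N + 1 := by omega
  rw [this]
  push_cast
  exact le_rfl

theorem lt_cN {N : ℕ} {a : ℤ → ℂ} (ha : IsSelfAdjointSeq a) (h0 : toep N a ≠ 0) {L M r : ℝ}
    (hL : L ≤ cA N a) (hM : opNorm (toep N a) ≤ M) (hr : r * M < L) (hr0 : 0 ≤ r) : r < cN N := by
  have hpos := opNorm_pos h0
  have hb : BddAbove {r | ∃ a, IsSelfAdjointSeq a ∧ toep N a ≠ 0 ∧
      r = cA N a / opNorm (toep N a)} := by
    refine ⟨2 * N + 1, ?_⟩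
    rintro _ ⟨b, _, hb, rfl⟩
    rw [div_le_iff₀ (opNorm_pos hb)]
    exact cA_le N b
  refine lt_of_lt_of_le ?_ (le_csSup hb ⟨a, ha, h0, rfl⟩)
  rw [lt_div_iff₀ hpos]
  nlinarith

/-! ## Duality -/

theorem dual (f : Lp ℂ ⊤ m) {Q : UnitAddCircle → ℂ} (hQ : Continuous Q) :
    ‖∫ x, Q x * f x ∂m‖ ≤ ‖f‖ * ∫ x, ‖Q x‖ ∂m := by
  have hint : Integrable (fun x => ‖f‖ * ‖Q x‖) m :=
    (continuous_const.mul hQ.norm).integrable_of_hasCompactSupport
      (HasCompactSupport.of_compactSpace _)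
  rw [← integral_const_mul]
  refine norm_integral_le_of_norm_le hint ?_
  have h1 : ∀ᵐ x ∂m, ‖f x‖ ≤ ‖f‖ := by
    have h2 := ae_le_eLpNormEssSup (f := f) (μ := m)
    filter_upwards [h2] with x hx
    rw [Lp.norm_def, eLpNorm_exponent_top]
    have h3 : eLpNormEssSup f m ≠ ⊤ := by
      rw [← eLpNorm_exponent_top]
      exact Lp.eLpNorm_ne_top f
    have := ENNReal.toReal_mono h3 hx
    simpa using this
  filter_upwards [h1] with x hx
  rw [norm_mul, mul_comm]
  exact mul_le_mul_of_nonneg_right hx (norm_nonneg _)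

theorem integrable_lp (f : Lp ℂ ⊤ m) : Integrable f m := (Lp.memLp f).integrable le_top

theorem int_fourier (f : Lp ℂ ⊤ m) (j : ℤ) : ∫ x, fourier j x * f x ∂m = fourierCoeff f (-j) := by
  unfold fourierCoeff
  rw [neg_neg]
  rfl

theorem int4 (f : Lp ℂ ⊤ m) (c₁ c₂ : ℂ) (i j : ℤ) :
    ∫ x, (c₁ * (fourier i x + fourier (-i) x) + c₂ * (fourier j x + fourier (-j) x)) * f x ∂m =
      c₁ * (fourierCoeff f (-i) + fourierCoeff f i) +
      c₂ * (fourierCoeff f (-j) + fourierCoeff f j) := by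
  have hi : ∀ n : ℤ, Integrable (fun x => fourier n x * f x) m := fun n =>
    (integrable_lp f).fourier_smul n
  have e : ∀ x, (c₁ * (fourier i x + fourier (-i) x) + c₂ * (fourier j x + fourier (-j) x)) * f x =
      (c₁ * (fourier i x * f x) + c₁ * (fourier (-i) x * f x)) +
      (c₂ * (fourier j x * f x) + c₂ * (fourier (-j) x * f x)) := fun x => by ring
  simp only [e]
  rw [integral_add (f := fun x => c₁ * (fourier i x * f x) + c₁ * (fourier (-i) x * f x))
    (g := fun x => c₂ * (fourier j x * f x) + c₂ * (fourier (-j) x * f x))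
    (((hi i).const_mul _).add ((hi _).const_mul _))
    (((hi j).const_mul _).add ((hi _).const_mul _)),
    integral_add (f := fun x => c₁ * (fourier i x * f x)) (g := fun x => c₁ * (fourier (-i) x * f x))
      ((hi i).const_mul _) ((hi _).const_mul _),
    integral_add (f := fun x => c₂ * (fourier j x * f x)) (g := fun x => c₂ * (fourier (-j) x * f x))
      ((hi j).const_mul _) ((hi _).const_mul _)]
  simp only [integral_const_mul, int_fourier, neg_neg]
  ring

/-- the trigonometric polynomial `c₁ cos(2π i x) + c₂ cos(2π j x)` on the circle -/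
def tp (c₁ c₂ : ℝ) (i j : ℤ) (x : UnitAddCircle) : ℂ :=
  (c₁ / 2) * (fourier i x + fourier (-i) x) + (c₂ / 2) * (fourier j x + fourier (-j) x)

theorem tp_cont (c₁ c₂ : ℝ) (i j : ℤ) : Continuous (tp c₁ c₂ i j) := by
  unfold tp
  have := fun n : ℤ => map_continuous (fourier (T := (1 : ℝ)) n)
  exact (continuous_const.mul ((this i).add (this _))).add
    (continuous_const.mul ((this j).add (this _)))

theorem tp_coe (c₁ c₂ : ℝ) (i j : ℤ) (x : ℝ) : tp c₁ c₂ i j (x : UnitAddCircle) =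
    ((c₁ * Real.cos (2 * Real.pi * i * x) + c₂ * Real.cos (2 * Real.pi * j * x) : ℝ) : ℂ) := by
  unfold tp
  have h : ∀ n : ℤ, (fourier n (x : UnitAddCircle) : ℂ) + fourier (-n) (x : UnitAddCircle) =
      2 * Complex.cos (2 * Real.pi * n * x) := by
    intro n
    rw [fourier_coe_apply, fourier_coe_apply, Complex.two_cos]
    push_cast
    congr 1
    · congr 1
      ring
    · congr 1
      ring
  rw [h, h]
  push_cast
  ring

theorem int_norm_tp (c₁ c₂ : ℝ) (i j : ℤ) (t : ℝ) : ∫ x, ‖tp c₁ c₂ i j x‖ ∂m =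
    ∫ x in t..(t + 1), |c₁ * Real.cos (2 * Real.pi * i * x) + c₂ * Real.cos (2 * Real.pi * j * x)| := by
  have h1 : ∫ x, ‖tp c₁ c₂ i j x‖ ∂m = ∫ x : UnitAddCircle, ‖tp c₁ c₂ i j x‖ := by
    rw [integral_haarAddCircle]
    simp
  rw [h1, ← AddCircle.intervalIntegral_preimage 1 t]
  refine intervalIntegral.integral_congr fun x _ => ?_
  rw [tp_coe, Complex.norm_real, Real.norm_eq_abs]

theorem int_norm_tp_scale (c₁ c₂ : ℝ) (i j : ℤ) {k : ℤ} (hk : k ≠ 0) :
    ∫ x, ‖tp c₁ c₂ (k * i) (k * j) x‖ ∂m = ∫ x, ‖tp c₁ c₂ i j x‖ ∂m := by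
  have hmp : MeasurePreserving (fun x : UnitAddCircle => k • x) m m :=
    Measure.measurePreserving_zsmul m hk
  have h1 : ∀ x : UnitAddCircle, tp c₁ c₂ (k * i) (k * j) x = tp c₁ c₂ i j (k • x) := by
    intro x
    unfold tp
    have : ∀ n : ℤ, (fourier (k * n) x : ℂ) = fourier n (k • x) := by
      intro n
      rw [fourier_apply, fourier_apply, ← mul_zsmul, mul_comm]
    rw [← mul_neg, ← mul_neg, this, this, this, this]
  simp only [h1]
  have h2 := integral_map (μ := m) hmp.measurable.aemeasurable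
    (f := fun x => ‖tp c₁ c₂ i j x‖) (by
      rw [hmp.map_eq]
      exact (tp_cont c₁ c₂ i j).norm.aestronglyMeasurable)
  rw [hmp.map_eq] at h2
  exact h2.symm

/-! ## Two integrals -/

theorem hd_sin (c : ℝ) (hc : c ≠ 0) (x : ℝ) :
    HasDerivAt (fun x => Real.sin (c * x) / c) (Real.cos (c * x)) x := by
  have h := (((hasDerivAt_id x).const_mul c).sin).div_const c
  refine h.congr_deriv ?_
  field_simp
  simp

theorem int_case1 : ∫ x in (-1 / 6 : ℝ)..(-1 / 6 + 1), |1 * Real.cos (2 * Real.pi * (1 : ℤ) * x) +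
    1 * Real.cos (2 * Real.pi * (2 : ℤ) * x)| = 3 * Real.sqrt 3 / (2 * Real.pi) := by
  have hpi := Real.pi_pos
  have hint : ∀ a b : ℝ, IntervalIntegrable (fun x : ℝ => |1 * Real.cos (2 * Real.pi * (1 : ℤ) * x) +
      1 * Real.cos (2 * Real.pi * (2 : ℤ) * x)|) volume a b := fun a b =>
    Continuous.intervalIntegrable (by fun_prop) _ _
  have hfac : ∀ x : ℝ, 1 * Real.cos (2 * Real.pi * (1 : ℤ) * x) +
      1 * Real.cos (2 * Real.pi * (2 : ℤ) * x) =
      (2 * Real.cos (2 * Real.pi * x) - 1) * (Real.cos (2 * Real.pi * x) + 1) := by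
    intro x
    have e1 : 2 * Real.pi * (1 : ℤ) * x = 2 * Real.pi * x := by push_cast; ring
    have e2 : 2 * Real.pi * (2 : ℤ) * x = 2 * (2 * Real.pi * x) := by push_cast; ring
    rw [e1, e2, Real.cos_two_mul]
    ring
  rw [← intervalIntegral.integral_add_adjacent_intervals (hint _ (1 / 6)) (hint _ _)]
  have h1 : ∫ x in (-1 / 6 : ℝ)..(1 / 6), |1 * Real.cos (2 * Real.pi * (1 : ℤ) * x) +
      1 * Real.cos (2 * Real.pi * (2 : ℤ) * x)| =
      ∫ x in (-1 / 6 : ℝ)..(1 / 6), (Real.cos (2 * Real.pi * x) + Real.cos (4 * Real.pi * x)) := by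
    refine intervalIntegral.integral_congr fun x hx => ?_
    rw [uIcc_of_le (by norm_num)] at hx
    rw [abs_of_nonneg]
    · push_cast
      ring_nf
    · rw [hfac]
      have h2 : Real.cos (Real.pi / 3) ≤ Real.cos (2 * Real.pi * x) := by
        rw [← Real.cos_abs (2 * Real.pi * x)]
        refine Real.cos_le_cos_of_nonneg_of_le_pi (abs_nonneg _) (by linarith) ?_
        rw [abs_le]
        constructor <;> nlinarith [hx.1, hx.2]
      rw [Real.cos_pi_div_three] at h2
      exact mul_nonneg (by linarith) (by linarith)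
  have h2 : ∫ x in (1 / 6 : ℝ)..(-1 / 6 + 1), |1 * Real.cos (2 * Real.pi * (1 : ℤ) * x) +
      1 * Real.cos (2 * Real.pi * (2 : ℤ) * x)| =
      ∫ x in (1 / 6 : ℝ)..(-1 / 6 + 1),
        -(Real.cos (2 * Real.pi * x) + Real.cos (4 * Real.pi * x)) := by
    refine intervalIntegral.integral_congr fun x hx => ?_
    rw [uIcc_of_le (by norm_num)] at hx
    rw [abs_of_nonpos]
    · push_cast
      ring_nf
    · rw [hfac]
      have h3 : Real.cos (2 * Real.pi / 3) ≤ Real.cos (2 * Real.pi * x - Real.pi) := by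
        rw [← Real.cos_abs (2 * Real.pi * x - Real.pi)]
        refine Real.cos_le_cos_of_nonneg_of_le_pi (abs_nonneg _) (by linarith) ?_
        rw [abs_le]
        constructor <;> nlinarith [hx.1, hx.2]
      rw [Real.cos_sub_pi, show 2 * Real.pi / 3 = Real.pi - Real.pi / 3 by ring, Real.cos_pi_sub,
        Real.cos_pi_div_three] at h3
      have h4 := Real.neg_one_le_cos (2 * Real.pi * x)
      exact mul_nonpos_of_nonpos_of_nonneg (by linarith) (by linarith)
  rw [h1, h2, intervalIntegral.integral_neg]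
  have hder : ∀ x : ℝ, HasDerivAt (fun x => Real.sin (2 * Real.pi * x) / (2 * Real.pi) +
      Real.sin (4 * Real.pi * x) / (4 * Real.pi))
      (Real.cos (2 * Real.pi * x) + Real.cos (4 * Real.pi * x)) x := fun x =>
    (hd_sin (2 * Real.pi) (by positivity) x).add (hd_sin (4 * Real.pi) (by positivity) x)
  have hcont : ∀ a b : ℝ, IntervalIntegrable
      (fun x : ℝ => Real.cos (2 * Real.pi * x) + Real.cos (4 * Real.pi * x)) volume a b :=
    fun a b => Continuous.intervalIntegrable (by fun_prop) _ _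
  rw [intervalIntegral.integral_eq_sub_of_hasDerivAt (fun x _ => hder x) (hcont _ _),
    intervalIntegral.integral_eq_sub_of_hasDerivAt (fun x _ => hder x) (hcont _ _)]
  have s1 : Real.sin (2 * Real.pi * (1 / 6)) = Real.sqrt 3 / 2 := by
    rw [show 2 * Real.pi * (1 / 6) = Real.pi / 3 by ring, Real.sin_pi_div_three]
  have s2 : Real.sin (4 * Real.pi * (1 / 6)) = Real.sqrt 3 / 2 := by
    rw [show 4 * Real.pi * (1 / 6) = Real.pi - Real.pi / 3 by ring, Real.sin_pi_sub,
      Real.sin_pi_div_three]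
  have s3 : Real.sin (2 * Real.pi * (-1 / 6)) = -(Real.sqrt 3 / 2) := by
    rw [show 2 * Real.pi * (-1 / 6) = -(Real.pi / 3) by ring, Real.sin_neg, Real.sin_pi_div_three]
  have s4 : Real.sin (4 * Real.pi * (-1 / 6)) = -(Real.sqrt 3 / 2) := by
    rw [show 4 * Real.pi * (-1 / 6) = -(Real.pi - Real.pi / 3) by ring, Real.sin_neg,
      Real.sin_pi_sub, Real.sin_pi_div_three]
  have s5 : Real.sin (2 * Real.pi * (-1 / 6 + 1)) = -(Real.sqrt 3 / 2) := by
    rw [show 2 * Real.pi * (-1 / 6 + 1) = -(Real.pi / 3) + 2 * Real.pi by ring,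
      Real.sin_add_two_pi, Real.sin_neg, Real.sin_pi_div_three]
  have s6 : Real.sin (4 * Real.pi * (-1 / 6 + 1)) = -(Real.sqrt 3 / 2) := by
    rw [show 4 * Real.pi * (-1 / 6 + 1) = -(Real.pi - Real.pi / 3) + 2 * Real.pi + 2 * Real.pi by
      ring, Real.sin_add_two_pi, Real.sin_add_two_pi, Real.sin_neg,
      Real.sin_pi_sub, Real.sin_pi_div_three]
  rw [s1, s2, s3, s4, s5, s6]
  field_simp
  ring

theorem int_case2 : ∫ x in (-1 / 4 : ℝ)..(-1 / 4 + 1), |1 * Real.cos (2 * Real.pi * (1 : ℤ) * x) +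
    (-1) * Real.cos (2 * Real.pi * (3 : ℤ) * x)| = 8 / (3 * Real.pi) := by
  have hpi := Real.pi_pos
  have hint : ∀ a b : ℝ, IntervalIntegrable (fun x : ℝ => |1 * Real.cos (2 * Real.pi * (1 : ℤ) * x) +
      (-1) * Real.cos (2 * Real.pi * (3 : ℤ) * x)|) volume a b := fun a b =>
    Continuous.intervalIntegrable (by fun_prop) _ _
  have hfac : ∀ x : ℝ, 1 * Real.cos (2 * Real.pi * (1 : ℤ) * x) +
      (-1) * Real.cos (2 * Real.pi * (3 : ℤ) * x) =
      4 * Real.cos (2 * Real.pi * x) * Real.sin (2 * Real.pi * x) ^ 2 := by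
    intro x
    have e1 : 2 * Real.pi * (1 : ℤ) * x = 2 * Real.pi * x := by push_cast; ring
    have e2 : 2 * Real.pi * (3 : ℤ) * x = 3 * (2 * Real.pi * x) := by push_cast; ring
    rw [e1, e2, Real.cos_three_mul, Real.sin_sq]
    ring
  rw [← intervalIntegral.integral_add_adjacent_intervals (hint _ (1 / 4)) (hint _ _)]
  have h1 : ∫ x in (-1 / 4 : ℝ)..(1 / 4), |1 * Real.cos (2 * Real.pi * (1 : ℤ) * x) +
      (-1) * Real.cos (2 * Real.pi * (3 : ℤ) * x)| =
      ∫ x in (-1 / 4 : ℝ)..(1 / 4), (Real.cos (2 * Real.pi * x) - Real.cos (6 * Real.pi * x)) := by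
    refine intervalIntegral.integral_congr fun x hx => ?_
    rw [uIcc_of_le (by norm_num)] at hx
    rw [abs_of_nonneg]
    · push_cast
      ring_nf
    · rw [hfac]
      have h2 : 0 ≤ Real.cos (2 * Real.pi * x) := by
        refine Real.cos_nonneg_of_neg_pi_div_two_le_of_le ?_ ?_ <;> nlinarith [hx.1, hx.2]
      positivity
  have h2 : ∫ x in (1 / 4 : ℝ)..(-1 / 4 + 1), |1 * Real.cos (2 * Real.pi * (1 : ℤ) * x) +
      (-1) * Real.cos (2 * Real.pi * (3 : ℤ) * x)| =
      ∫ x in (1 / 4 : ℝ)..(-1 / 4 + 1),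
        -(Real.cos (2 * Real.pi * x) - Real.cos (6 * Real.pi * x)) := by
    refine intervalIntegral.integral_congr fun x hx => ?_
    rw [uIcc_of_le (by norm_num)] at hx
    rw [abs_of_nonpos]
    · push_cast
      ring_nf
    · rw [hfac]
      have h3 : Real.cos (2 * Real.pi * x) ≤ 0 := by
        refine Real.cos_nonpos_of_pi_div_two_le_of_le ?_ ?_ <;> nlinarith [hx.1, hx.2]
      have h4 : 0 ≤ Real.sin (2 * Real.pi * x) ^ 2 := by positivity
      exact mul_nonpos_of_nonpos_of_nonneg (by linarith) h4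
  rw [h1, h2, intervalIntegral.integral_neg]
  have hder : ∀ x : ℝ, HasDerivAt (fun x => Real.sin (2 * Real.pi * x) / (2 * Real.pi) -
      Real.sin (6 * Real.pi * x) / (6 * Real.pi))
      (Real.cos (2 * Real.pi * x) - Real.cos (6 * Real.pi * x)) x := fun x =>
    (hd_sin (2 * Real.pi) (by positivity) x).sub (hd_sin (6 * Real.pi) (by positivity) x)
  have hcont : ∀ a b : ℝ, IntervalIntegrable
      (fun x : ℝ => Real.cos (2 * Real.pi * x) - Real.cos (6 * Real.pi * x)) volume a b :=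
    fun a b => Continuous.intervalIntegrable (by fun_prop) _ _
  rw [intervalIntegral.integral_eq_sub_of_hasDerivAt (fun x _ => hder x) (hcont _ _),
    intervalIntegral.integral_eq_sub_of_hasDerivAt (fun x _ => hder x) (hcont _ _)]
  have s1 : Real.sin (2 * Real.pi * (1 / 4)) = 1 := by
    rw [show 2 * Real.pi * (1 / 4) = Real.pi / 2 by ring, Real.sin_pi_div_two]
  have s2 : Real.sin (6 * Real.pi * (1 / 4)) = -1 := by
    rw [show 6 * Real.pi * (1 / 4) = Real.pi / 2 + Real.pi by ring, Real.sin_add_pi,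
      Real.sin_pi_div_two]
  have s3 : Real.sin (2 * Real.pi * (-1 / 4)) = -1 := by
    rw [show 2 * Real.pi * (-1 / 4) = -(Real.pi / 2) by ring, Real.sin_neg, Real.sin_pi_div_two]
  have s4 : Real.sin (6 * Real.pi * (-1 / 4)) = 1 := by
    rw [show 6 * Real.pi * (-1 / 4) = -(Real.pi / 2 + Real.pi) by ring, Real.sin_neg,
      Real.sin_add_pi, Real.sin_pi_div_two, neg_neg]
  have s5 : Real.sin (2 * Real.pi * (-1 / 4 + 1)) = -1 := by
    rw [show 2 * Real.pi * (-1 / 4 + 1) = Real.pi / 2 + Real.pi by ring,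
      Real.sin_add_pi, Real.sin_pi_div_two]
  have s6 : Real.sin (6 * Real.pi * (-1 / 4 + 1)) = 1 := by
    rw [show 6 * Real.pi * (-1 / 4 + 1) = Real.pi / 2 + 2 * Real.pi + 2 * Real.pi by
      ring, Real.sin_add_two_pi, Real.sin_add_two_pi, Real.sin_pi_div_two]
  rw [s1, s2, s3, s4, s5, s6]
  field_simp
  ring

/-! ## The main theorem -/

theorem case1 {N k : ℕ} (hk : 0 < k) (h1 : 2 * k ≤ N) (h2 : N < 3 * k) : Real.pi / 2 < cN N := by
  have hpi := Real.pi_pos
  have hkZ : (k : ℤ) ≠ 0 := by exact_mod_cast hk.ne'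
  have hv1 : aSeq k (k : ℤ) = 2 := by
    unfold aSeq
    rw [if_neg hkZ, if_pos (dvd_refl _)]
  have hv1' : aSeq k (-(k : ℤ)) = 2 := by
    unfold aSeq
    rw [if_neg (by omega), if_pos (by simp)]
  have hv2 : aSeq k (2 * (k : ℤ)) = 2 := by
    unfold aSeq
    rw [if_neg (by omega), if_pos (Dvd.intro_left _ rfl)]
  have hv2' : aSeq k (-(2 * (k : ℤ))) = 2 := by
    unfold aSeq
    rw [if_neg (by omega), if_pos (by rw [dvd_neg]; exact Dvd.intro_left _ rfl)]
  have hsa : IsSelfAdjointSeq (aSeq k) := by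
    intro n
    unfold aSeq
    simp only [neg_eq_zero, dvd_neg]
    split_ifs
    · simp
    · exact (map_ofNat (starRingEnd ℂ) 2).symm
    · simp
  have h0 : toep N (aSeq k) ≠ 0 := by
    intro h
    have h3 := congrFun (congrFun h 0) 0
    have h4 : toep N (aSeq k) 0 0 = -1 := by
      unfold toep aSeq
      simp
    rw [h4] at h3
    norm_num at h3
  have hs3 : 0 < Real.sqrt 3 := by positivity
  have hs3' : Real.sqrt 3 * Real.sqrt 3 = 3 := Real.mul_self_sqrt (by norm_num)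
  refine lt_cN (L := 8 * Real.pi / (3 * Real.sqrt 3)) (M := 3) hsa h0 (le_cA fun f hf => ?_)
    (opNorm_aSeq hk h2) ?_ (by positivity)
  · have hf1 : fourierCoeff f (k : ℤ) = 2 := (hf _ (by rw [abs_le]; omega)).trans hv1
    have hf1' : fourierCoeff f (-(k : ℤ)) = 2 := (hf _ (by rw [abs_le]; omega)).trans hv1'
    have hf2 : fourierCoeff f (2 * (k : ℤ)) = 2 := (hf _ (by rw [abs_le]; omega)).trans hv2
    have hf2' : fourierCoeff f (-(2 * (k : ℤ))) = 2 := (hf _ (by rw [abs_le]; omega)).trans hv2'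
    have h3 := dual f (tp_cont 1 1 ((k : ℤ) * 1) ((k : ℤ) * 2))
    rw [int_norm_tp_scale 1 1 1 2 hkZ, int_norm_tp 1 1 1 2 (-1 / 6), int_case1] at h3
    unfold tp at h3
    rw [int4, mul_one, mul_comm (k : ℤ) 2, hf1, hf1', hf2, hf2'] at h3
    norm_num at h3
    rw [div_le_iff₀ (by positivity)]
    rw [mul_div_assoc', le_div_iff₀ (by positivity)] at h3
    linarith
  · rw [lt_div_iff₀ (by positivity)]
    have : Real.sqrt 3 < 16 / 9 := by
      rw [Real.sqrt_lt' (by norm_num)]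
      norm_num
    nlinarith

theorem case2 : Real.pi / 2 < cN 3 := by
  have hpi := Real.pi_pos
  have hsa : IsSelfAdjointSeq bSeq := by
    intro n
    unfold bSeq
    simp only [abs_neg]
    split_ifs <;> simp
  have h0 : toep 3 bSeq ≠ 0 := by
    intro h
    have h3 := congrFun (congrFun h 0) 1
    have h4 : toep 3 bSeq 0 1 = 1 := by
      unfold toep bSeq
      simp
    rw [h4] at h3
    norm_num at h3
  have hs2 : 0 < Real.sqrt 2 := by positivity
  refine lt_cN (L := 3 * Real.pi / 4) (M := Real.sqrt 2) hsa h0 (le_cA fun f hf => ?_)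
    opNorm_bSeq ?_ (by positivity)
  · have hf1 : fourierCoeff f (1 : ℤ) = 1 := (hf 1 (by norm_num)).trans (by simp [bSeq])
    have hf1' : fourierCoeff f (-1 : ℤ) = 1 := (hf (-1) (by norm_num)).trans (by simp [bSeq])
    have hf3 : fourierCoeff f (3 : ℤ) = -1 := (hf 3 (by norm_num)).trans (by norm_num [bSeq])
    have hf3' : fourierCoeff f (-3 : ℤ) = -1 := (hf (-3) (by norm_num)).trans (by norm_num [bSeq])
    have h3 := dual f (tp_cont 1 (-1) 1 3)
    rw [int_norm_tp 1 (-1) 1 3 (-1 / 4), int_case2] at h3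
    unfold tp at h3
    rw [int4, hf1, hf1', hf3, hf3'] at h3
    norm_num at h3
    rw [mul_div_assoc', le_div_iff₀ (by positivity)] at h3
    linarith
  · have : Real.sqrt 2 < 3 / 2 := by
      rw [Real.sqrt_lt' (by norm_num)]
      norm_num
    nlinarith

/-- **Main theorem.** `c_N > π/2` for every `N ≥ 2`. -/
theorem result (N : ℕ) (hN : 2 ≤ N) : Real.pi / 2 < cN N := by
  by_cases h : N = 3
  · subst h
    exact case2
  · exact case1 (k := N / 2) (by omega) (by omega) (by omega)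

end

end Pool.Agent.Results.MP_becf51_an.MiniMax
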